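import Pool.Agent.AT3.Stmts3
import Pool.Agent.Helper3_C2.PSN

/-!
# Squad AT3, module PSG: quotients of a block by a central `ℓ`-subgroup
-/

open scoped BigOperators

noncomputable section

namespace Pool.Agent.PP.T3.H53

theorem psg : PsgStmt := by
  intro ℓ _ F _ hF G H _ _ _ _ p hp hc hl e he
  exact Pool.Agent.PP.C2.H3.psn ℓ F hF G H p hp hl hc e he

end Pool.Agent.PP.T3.H53
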